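import Mathlib

/-!
# Boundary overlap ratio for congruent triangles: a counterexample

For overlapping congruent triangles `K`, `K'` with boundaries `C`, `C'` put
`R(K, K') = length (C ∩ K') / length (C' ∩ K)`, and let `M(T)` be the supremum of `R(K, K')` over all
overlapping pairs of triangles congruent to `T`.  It was conjectured that `M(T) = csc (θ / 2)`,
where `θ` is the smallest angle of `T`.  For the right triangle `T` with sides `30, 40, 50` we have
`csc (θ / 2) = √10 < 4 < M(T)`.

The plane is `ℂ`; `K` is the triangle `0, 50, 32 + 24 i` and `K'` the triangle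
`-3 - i, 37 + 29 i, 37 - i`, its image under a reflection in the bisector of the smallest angle,
followed by a small translation.
-/

set_option autoImplicit false

namespace Pool.Agent.Results.MP_071e18_gt.RightTriangle

open MeasureTheory Set Complex
open scoped ENNReal

/-- one-dimensional length -/
noncomputable def length (S : Set ℂ) : ℝ≥0∞ := μH[1] S

/-- congruent plane sets -/
def Congruent (K K' : Set ℂ) : Prop := ∃ g : ℂ → ℂ, Isometry g ∧ K' = g '' K

/-- overlapping plane sets -/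
def Overlap (K K' : Set ℂ) : Prop := (interior K ∩ interior K').Nonempty ∧ K ≠ K'

/-- the boundary overlap ratio -/
noncomputable def ratio (K K' : Set ℂ) : ℝ≥0∞ :=
  length (frontier K ∩ K') / length (frontier K' ∩ K)

/-- the supremum of the ratio over all overlapping pairs of sets congruent to `T` -/
noncomputable def M (T : Set ℂ) : ℝ≥0∞ := ⨆ (K : Set ℂ) (K' : Set ℂ) (_ : Congruent T K)
  (_ : Congruent T K') (_ : Overlap K K'), ratio K K'

/-- the triangle with the vertices `A`, `B`, `C` -/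
def triangle (A B C : ℂ) : Set ℂ := convexHull ℝ {A, B, C}

/-- the first triangle -/
def K : Set ℂ := triangle 0 50 (32 + 24 * I)

/-- the reflection -/
noncomputable def g (z : ℂ) : ℂ := (4 + 3 * I) / 5 * (starRingEnd ℂ) z - (3 + I)

theorem g_iso : Isometry g := by
  refine Isometry.of_dist_eq fun z w => ?_
  rw [dist_eq_norm, dist_eq_norm]
  unfold g
  rw [show (4 + 3 * I) / 5 * (starRingEnd ℂ) z - (3 + I) -
    ((4 + 3 * I) / 5 * (starRingEnd ℂ) w - (3 + I)) = (4 + 3 * I) / 5 * (starRingEnd ℂ) (z - w) by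
      rw [map_sub]; ring]
  rw [norm_mul, Complex.norm_conj]
  have : ‖((4 + 3 * I) / 5 : ℂ)‖ = 1 := by
    rw [norm_div, show ‖(5 : ℂ)‖ = 5 by simp]
    rw [show (4 + 3 * I : ℂ) = ((4 : ℝ) : ℂ) + ((3 : ℝ) : ℂ) * I by simp, Complex.norm_add_mul_I]
    rw [show (4 : ℝ) ^ 2 + 3 ^ 2 = 5 ^ 2 by norm_num, Real.sqrt_sq (by norm_num)]
    norm_num
  rw [this, one_mul]

theorem mem_K (z : ℂ) : z ∈ K ↔ 0 ≤ z.im ∧ 0 ≤ 3 * z.re - 4 * z.im ∧ 4 * z.re + 3 * z.im ≤ 200 := by
  constructor
  · intro h
    have hc : Convex ℝ {z : ℂ | 0 ≤ z.im ∧ 0 ≤ 3 * z.re - 4 * z.im ∧ 4 * z.re + 3 * z.im ≤ 200} := by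
      rintro x ⟨x1, x2, x3⟩ y ⟨y1, y2, y3⟩ a b ha hb hab
      simp only [Set.mem_ofPred_eq, add_re, add_im, real_smul, mul_re, mul_im, ofReal_re, ofReal_im]
      refine ⟨?_, ?_, ?_⟩
      · nlinarith [mul_nonneg ha x1, mul_nonneg hb y1]
      · nlinarith [mul_nonneg ha x2, mul_nonneg hb y2]
      · nlinarith [mul_le_mul_of_nonneg_left x3 ha, mul_le_mul_of_nonneg_left y3 hb]
    refine convexHull_min ?_ hc h
    rintro x (rfl | rfl | rfl)
    · simp
    · simp
      norm_num
    · simp
      norm_num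
  · rintro ⟨h1, h2, h3⟩
    have hc : Convex ℝ K := convex_convexHull ℝ _
    have m1 : (0 : ℂ) ∈ K := subset_convexHull ℝ _ (by simp)
    have m2 : (50 : ℂ) ∈ K := subset_convexHull ℝ _ (by simp)
    have m3 : (32 + 24 * I : ℂ) ∈ K := subset_convexHull ℝ _ (by simp)
    have := hc.sum_mem (t := Finset.univ) (w := ![(200 - 4 * z.re - 3 * z.im) / 200,
      (3 * z.re - 4 * z.im) / 150, z.im / 24]) (z := ![0, 50, 32 + 24 * I]) ?_ ?_ ?_
    · convert this using 1
      simp only [Fin.sum_univ_three, Matrix.cons_val_zero, Matrix.cons_val_one, Matrix.cons_val_two,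
        Matrix.head_cons, Matrix.tail_cons, real_smul]
      apply Complex.ext
      · simp
        ring
      · simp
    · intro i _
      fin_cases i
      · simp only [Fin.zero_eta, Matrix.cons_val_zero]
        linarith
      · simp only [Fin.mk_one, Matrix.cons_val_one]
        have : 0 ≤ (3 * z.re - 4 * z.im) / 150 := by positivity
        exact this
      · have : 0 ≤ z.im / 24 := by positivity
        exact this
    · simp [Fin.sum_univ_three]
      ring
    · intro i _
      fin_cases i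
      · exact m1
      · exact m2
      · exact m3

/-- the second triangle -/
noncomputable def K' : Set ℂ := g '' K

theorem mem_K' (z : ℂ) : z ∈ K' ↔ -1 ≤ z.im ∧ z.re ≤ 37 ∧ 0 ≤ 3 * z.re - 4 * z.im + 5 := by
  have key : ∀ w : ℂ, g w = z ↔ w.re = (4 * (z.re + 3) + 3 * (z.im + 1)) / 5 ∧
      w.im = (3 * (z.re + 3) - 4 * (z.im + 1)) / 5 := by
    intro w
    unfold g
    rw [Complex.ext_iff]
    simp
    norm_num
    constructor
    · rintro ⟨h1, h2⟩
      constructor <;> linarith
    · rintro ⟨h1, h2⟩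
      constructor <;> linarith
  constructor
  · rintro ⟨w, hw, h⟩
    rw [mem_K] at hw
    obtain ⟨e1, e2⟩ := (key w).1 h
    rw [e1, e2] at hw
    obtain ⟨h1, h2, h3⟩ := hw
    refine ⟨?_, ?_, ?_⟩ <;> linarith
  · rintro ⟨h1, h2, h3⟩
    refine ⟨⟨(4 * (z.re + 3) + 3 * (z.im + 1)) / 5, (3 * (z.re + 3) - 4 * (z.im + 1)) / 5⟩, ?_,
      (key _).2 ⟨rfl, rfl⟩⟩
    rw [mem_K]
    simp only
    refine ⟨?_, ?_, ?_⟩ <;> linarith


theorem closed_K : IsClosed K := by
  have : K = {z : ℂ | 0 ≤ z.im} ∩ ({z : ℂ | 0 ≤ 3 * z.re - 4 * z.im} ∩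
      {z : ℂ | 4 * z.re + 3 * z.im ≤ 200}) := by
    ext z
    exact mem_K z
  rw [this]
  refine IsClosed.inter ?_ (IsClosed.inter ?_ ?_)
  · exact isClosed_le continuous_const continuous_im
  · exact isClosed_le continuous_const (by fun_prop)
  · exact isClosed_le (by fun_prop) continuous_const

theorem closed_K' : IsClosed K' := by
  have : K' = {z : ℂ | -1 ≤ z.im} ∩ ({z : ℂ | z.re ≤ 37} ∩
      {z : ℂ | 0 ≤ 3 * z.re - 4 * z.im + 5}) := by
    ext z
    exact mem_K' z
  rw [this]
  refine IsClosed.inter ?_ (IsClosed.inter ?_ ?_)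
  · exact isClosed_le continuous_const continuous_im
  · exact isClosed_le continuous_re continuous_const
  · exact isClosed_le continuous_const (by fun_prop)

/-- a point of a set from which one leaves the set immediately in some direction is not interior -/
theorem not_int {S : Set ℂ} {z d : ℂ} (h : ∀ t : ℝ, 0 < t → z + t * d ∉ S) : z ∉ interior S := by
  intro hz
  have hc : ContinuousAt (fun t : ℝ => z + t * d) 0 := by fun_prop
  have h1 : ∀ᶠ t : ℝ in nhds 0, z + t * d ∈ S := by
    refine hc.eventually_mem (s := S) ?_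
    rw [ofReal_zero, zero_mul, add_zero]
    exact mem_interior_iff_mem_nhds.1 hz
  have h2 : ∀ᶠ t : ℝ in nhdsWithin 0 (Ioi 0), z + t * d ∈ S := h1.filter_mono nhdsWithin_le_nhds
  obtain ⟨t, ht, ht0⟩ := (h2.and self_mem_nhdsWithin).exists
  exact h t ht0 ht

theorem low1 : segment ℝ (0 : ℂ) 37 ⊆ frontier K ∩ K' := by
  rintro z ⟨a, b, ha, hb, hab, rfl⟩
  have e1 : (a • (0 : ℂ) + b • (37 : ℂ)).re = 37 * b := by simp; ring
  have e2 : (a • (0 : ℂ) + b • (37 : ℂ)).im = 0 := by simp
  have hb1 : b ≤ 1 := by linarith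
  constructor
  · rw [closed_K.frontier_eq]
    refine ⟨?_, not_int (d := -I) fun t ht => ?_⟩
    · rw [mem_K, e1, e2]
      refine ⟨?_, ?_, ?_⟩ <;> linarith
    · rw [mem_K]
      rintro ⟨h, -, -⟩
      rw [add_im, e2] at h
      simp at h
      linarith
  · rw [mem_K', e1, e2]
    refine ⟨?_, ?_, ?_⟩ <;> linarith

theorem low2 : segment ℝ (4 + 3 * I : ℂ) (32 + 24 * I) ⊆ frontier K ∩ K' := by
  rintro z ⟨a, b, ha, hb, hab, rfl⟩
  have e1 : (a • (4 + 3 * I : ℂ) + b • (32 + 24 * I : ℂ)).re = 4 * a + 32 * b := by simp; ring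
  have e2 : (a • (4 + 3 * I : ℂ) + b • (32 + 24 * I : ℂ)).im = 3 * a + 24 * b := by simp; ring
  have hb1 : b ≤ 1 := by linarith
  constructor
  · rw [closed_K.frontier_eq]
    refine ⟨?_, not_int (d := -3 + 4 * I) fun t ht => ?_⟩
    · rw [mem_K, e1, e2]
      refine ⟨?_, ?_, ?_⟩ <;> linarith
    · rw [mem_K]
      rintro ⟨-, h, -⟩
      rw [add_im, add_re, e2, e1] at h
      simp at h
      linarith
  · rw [mem_K', e1, e2]
    refine ⟨?_, ?_, ?_⟩ <;> linarith

theorem dist1 : edist (0 : ℂ) 37 = 37 := by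
  rw [edist_dist, dist_comm, dist_zero_right]
  simp

theorem dist2 : edist (4 + 3 * I : ℂ) (32 + 24 * I) = 35 := by
  rw [edist_dist, dist_comm, dist_eq_norm,
    show (32 + 24 * I - (4 + 3 * I) : ℂ) = ((28 : ℝ) : ℂ) + ((21 : ℝ) : ℂ) * I by push_cast; ring,
    Complex.norm_add_mul_I, show (28 : ℝ) ^ 2 + 21 ^ 2 = 35 ^ 2 by norm_num,
    Real.sqrt_sq (by norm_num)]
  norm_num

/-- the length of the part of the first boundary in the second triangle -/
theorem lower : 72 ≤ length (frontier K ∩ K') := by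
  have hsub := union_subset low1 low2
  refine le_trans ?_ (measure_mono hsub)
  rw [measure_union, hausdorffMeasure_segment, hausdorffMeasure_segment, dist1, dist2]
  · norm_num
  · rw [Set.disjoint_left]
    rintro z ⟨a, b, ha, hb, hab, rfl⟩ ⟨a', b', ha', hb', hab', h⟩
    have h1 := congrArg Complex.im h
    simp at h1
    nlinarith
  · exact (isCompact_segment _ _).isClosed.measurableSet
where
  isCompact_segment (x y : ℂ) : IsCompact (segment ℝ x y) := by
    rw [← convexHull_pair]
    exact (Set.toFinite _).isCompact_convexHull (𝕜 := ℝ)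

/-- the part of the second boundary in the first triangle -/
theorem up : frontier K' ∩ K ⊆ segment ℝ (37 : ℂ) (37 + (52 / 3 : ℝ) * I) := by
  rintro z ⟨h1, h2⟩
  rw [closed_K'.frontier_eq] at h1
  obtain ⟨h1, h3⟩ := h1
  rw [mem_K'] at h1
  rw [mem_K] at h2
  obtain ⟨k1, k2, k3⟩ := h1
  obtain ⟨m1, m2, m3⟩ := h2
  have hre : z.re = 37 := by
    by_contra hne
    apply h3
    have hopen : IsOpen ({z : ℂ | -1 < z.im} ∩ ({z : ℂ | z.re < 37} ∩
        {z : ℂ | 0 < 3 * z.re - 4 * z.im + 5})) := by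
      refine IsOpen.inter ?_ (IsOpen.inter ?_ ?_)
      · exact isOpen_lt continuous_const continuous_im
      · exact isOpen_lt continuous_re continuous_const
      · exact isOpen_lt continuous_const (by fun_prop)
    refine mem_interior.2 ⟨_, ?_, hopen, ?_⟩
    · rintro w ⟨w1, w2, w3⟩
      rw [mem_K']
      exact ⟨le_of_lt w1, le_of_lt w2, le_of_lt w3⟩
    · refine ⟨?_, lt_of_le_of_ne k2 hne, ?_⟩
      · change -1 < z.im
        linarith
      · change 0 < 3 * z.re - 4 * z.im + 5
        linarith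
  have him : z.im ≤ 52 / 3 := by linarith
  obtain ⟨b, hb⟩ : ∃ b : ℝ, z.im = b * (52 / 3) := ⟨z.im * (3 / 52), by ring⟩
  refine ⟨1 - b, b, by linarith, by linarith, by ring, ?_⟩
  apply Complex.ext
  · simp
    linarith
  · simp
    linarith

theorem upper : length (frontier K' ∩ K) ≤ ENNReal.ofReal (52 / 3) := by
  refine (measure_mono up).trans ?_
  rw [hausdorffMeasure_segment, edist_dist]
  refine ENNReal.ofReal_le_ofReal ?_
  rw [dist_comm, dist_eq_norm, show (37 + (52 / 3 : ℝ) * I - 37 : ℂ) = (52 / 3 : ℝ) * I by ring,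
    norm_mul, Complex.norm_I, mul_one, Complex.norm_real]
  norm_num

theorem congr_K : Congruent K K := ⟨id, isometry_id, (image_id _).symm⟩

theorem congr_K' : Congruent K K' := ⟨g, g_iso, rfl⟩

theorem overlap : Overlap K K' := by
  constructor
  · refine ⟨20 + 5 * I, ?_, ?_⟩
    · have hopen : IsOpen ({z : ℂ | 0 < z.im} ∩ ({z : ℂ | 0 < 3 * z.re - 4 * z.im} ∩
          {z : ℂ | 4 * z.re + 3 * z.im < 200})) := by
        refine IsOpen.inter ?_ (IsOpen.inter ?_ ?_)
        · exact isOpen_lt continuous_const continuous_im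
        · exact isOpen_lt continuous_const (by fun_prop)
        · exact isOpen_lt (by fun_prop) continuous_const
      refine mem_interior.2 ⟨_, ?_, hopen, ?_⟩
      · rintro w ⟨w1, w2, w3⟩
        rw [mem_K]
        exact ⟨le_of_lt w1, le_of_lt w2, le_of_lt w3⟩
      · simp
        norm_num
    · have hopen : IsOpen ({z : ℂ | -1 < z.im} ∩ ({z : ℂ | z.re < 37} ∩
          {z : ℂ | 0 < 3 * z.re - 4 * z.im + 5})) := by
        refine IsOpen.inter ?_ (IsOpen.inter ?_ ?_)
        · exact isOpen_lt continuous_const continuous_im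
        · exact isOpen_lt continuous_re continuous_const
        · exact isOpen_lt continuous_const (by fun_prop)
      refine mem_interior.2 ⟨_, ?_, hopen, ?_⟩
      · rintro w ⟨w1, w2, w3⟩
        rw [mem_K']
        exact ⟨le_of_lt w1, le_of_lt w2, le_of_lt w3⟩
      · simp
        norm_num
  · intro h
    have : (-3 - I : ℂ) ∈ K' := by
      rw [mem_K']
      simp
      norm_num
    rw [← h, mem_K] at this
    simp at this
    linarith [this.1]

theorem four_lt : 4 < M K := by
  have h1 : ratio K K' ≤ M K :=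
    le_iSup_of_le K (le_iSup_of_le K' (le_iSup_of_le congr_K (le_iSup_of_le congr_K'
      (le_iSup_of_le overlap le_rfl))))
  refine lt_of_lt_of_le ?_ h1
  unfold ratio
  rw [ENNReal.lt_div_iff_mul_lt]
  · refine lt_of_le_of_lt (mul_le_mul_right upper 4) (lt_of_lt_of_le ?_ lower)
    rw [show (4 : ℝ≥0∞) = ENNReal.ofReal 4 by norm_num, ← ENNReal.ofReal_mul (by norm_num),
      show (72 : ℝ≥0∞) = ENNReal.ofReal 72 by norm_num]
    exact (ENNReal.ofReal_lt_ofReal_iff (by norm_num)).2 (by norm_num)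
  · right
    norm_num
  · right
    norm_num

theorem angle_eq {x y : ℂ} {a b c : ℝ} (hx : ‖x‖ = a) (hy : ‖y‖ = b)
    (hc : x.re * y.re + x.im * y.im = c) :
    InnerProductGeometry.angle x y = Real.arccos (c / (a * b)) := by
  unfold InnerProductGeometry.angle
  rw [hx, hy, Complex.inner, ← hc]
  congr 2
  simp
  ring

theorem norm_eq' {x y r : ℝ} (hr : 0 ≤ r) (h : x ^ 2 + y ^ 2 = r ^ 2) :
    ‖((x : ℂ) + (y : ℂ) * I)‖ = r := by
  rw [Complex.norm_add_mul_I, h, Real.sqrt_sq hr]

open EuclideanGeometry in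
theorem angle_B : ∠ (50 : ℂ) 0 (32 + 24 * I) = Real.arccos (4 / 5) := by
  unfold EuclideanGeometry.angle
  rw [angle_eq (a := 50) (b := 40) (c := 1600)]
  · norm_num
  · simp
  · have := norm_eq' (x := 32) (y := 24) (r := 40) (by norm_num) (by norm_num)
    rw [← this]
    simp
  · simp
    norm_num

open EuclideanGeometry in
theorem angle_C : ∠ (0 : ℂ) (32 + 24 * I) 50 = Real.arccos 0 := by
  unfold EuclideanGeometry.angle
  rw [angle_eq (a := 40) (b := 30) (c := 0)]
  · norm_num
  · have := norm_eq' (x := -32) (y := -24) (r := 40) (by norm_num) (by norm_num)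
    rw [← this]
    congr 1
    simp
    ring
  · have := norm_eq' (x := 18) (y := -24) (r := 30) (by norm_num) (by norm_num)
    rw [← this]
    congr 1
    simp
    ring
  · simp
    norm_num

open EuclideanGeometry in
theorem angle_A : ∠ (32 + 24 * I : ℂ) 50 0 = Real.arccos (3 / 5) := by
  unfold EuclideanGeometry.angle
  rw [angle_eq (a := 30) (b := 50) (c := 900)]
  · norm_num
  · have := norm_eq' (x := -18) (y := 24) (r := 30) (by norm_num) (by norm_num)
    rw [← this]
    congr 1
    simp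
    ring
  · simp
  · simp
    norm_num

theorem csc_eq : 1 / Real.sin (Real.arccos (4 / 5) / 2) = √10 := by
  rw [Real.sin_half_eq_sqrt (Real.arccos_nonneg _)
    ((Real.arccos_le_pi _).trans (by linarith [Real.pi_pos])), Real.cos_arccos (by norm_num)
    (by norm_num), show ((1 : ℝ) - 4 / 5) / 2 = 10⁻¹ by norm_num, Real.sqrt_inv]
  simp

theorem csc_lt : ENNReal.ofReal (1 / Real.sin (Real.arccos (4 / 5) / 2)) < 4 := by
  rw [csc_eq, show (4 : ℝ≥0∞) = ENNReal.ofReal 4 by norm_num]
  refine (ENNReal.ofReal_lt_ofReal_iff (by norm_num)).2 ?_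
  rw [Real.sqrt_lt' (by norm_num)]
  norm_num

theorem indep : AffineIndependent ℝ ![(50 : ℂ), 0, 32 + 24 * I] := by
  rw [affineIndependent_iff_not_collinear_set,
    collinear_iff_of_mem (p₀ := (0 : ℂ)) (by simp)]
  rintro ⟨v, hv⟩
  obtain ⟨r1, e1⟩ := hv 50 (by simp)
  obtain ⟨r2, e2⟩ := hv (32 + 24 * I) (by simp)
  have a1 := congrArg Complex.re e1
  have a2 := congrArg Complex.im e1
  have a3 := congrArg Complex.im e2
  simp at a1 a2 a3
  rcases a2 with h | h
  · rw [h] at a1
    simp at a1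
  · rw [h] at a3
    simp at a3

open EuclideanGeometry in
/-- **The conjecture `M(T) = csc (θ / 2)` is false.**  There is a triangle `A B C` with smallest angle
`θ = ∠ A B C`, for which `M (triangle A B C)` is greater than `4`, while `csc (θ / 2) = √10`. -/
theorem result :
    (∃ A B C : ℂ, AffineIndependent ℝ ![A, B, C] ∧ ∠ A B C < ∠ B C A ∧ ∠ A B C < ∠ C A B ∧
      1 / Real.sin (∠ A B C / 2) = √10 ∧ 4 < M (triangle A B C)) ∧
    ¬ ∀ A B C : ℂ, AffineIndependent ℝ ![A, B, C] → ∠ A B C ≤ ∠ B C A → ∠ A B C ≤ ∠ C A B →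
      M (triangle A B C) = ENNReal.ofReal (1 / Real.sin (∠ A B C / 2)) := by
  have hM : 4 < M (triangle 50 0 (32 + 24 * I)) := by
    have : triangle 50 0 (32 + 24 * I) = K := by
      unfold K triangle
      rw [insert_comm]
    rw [this]
    exact four_lt
  have h1 : ∠ (50 : ℂ) 0 (32 + 24 * I) < ∠ (0 : ℂ) (32 + 24 * I) 50 := by
    rw [angle_B, angle_C]
    exact Real.strictAntiOn_arccos (by norm_num) (by norm_num) (by norm_num)
  have h2 : ∠ (50 : ℂ) 0 (32 + 24 * I) < ∠ (32 + 24 * I : ℂ) 50 0 := by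
    rw [angle_B, angle_A]
    exact Real.strictAntiOn_arccos (by norm_num) (by norm_num) (by norm_num)
  refine ⟨⟨50, 0, 32 + 24 * I, indep, h1, h2, ?_, hM⟩, fun h => ?_⟩
  · rw [angle_B]
    exact csc_eq
  · have := h 50 0 (32 + 24 * I) indep h1.le h2.le
    rw [this, angle_B] at hM
    exact absurd hM (not_lt.2 csc_lt.le)

end Pool.Agent.Results.MP_071e18_gt.RightTriangle
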